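import Pool.Agent.H914R2.KCorr

/-!
# Classes supported in positive codimension
-/

set_option linter.unusedSectionVars false

open CategoryTheory AlgebraicGeometry

universe u v

namespace Run7.h853.Gh

open Pool.Agent.H914 Pool.Agent.H914.VarClass Pool.Agent.H914.VarClass.Obj
  Pool.Agent.H914.WeilCohomology

variable {k : Type u} [Field k] {𝒱 : VarClass k} {ops : CycleOps 𝒱}
  (W : WeilCohomology.{u, v} ops) {X Y Y' Z : 𝒱.Obj}

/-- The classes supported in codimension `c`. -/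
def Cn (c : ℕ) (Y : 𝒱.Obj) : Submodule W.K (W.H Y) :=
  Submodule.span W.K {y | ∃ (Z : 𝒱.Obj) (r : ℕ) (z : (Z.prod Y).Cycles) (x : W.H Z),
    (Z.prod Y).IsCyc r z ∧ Z.dim + c ≤ r ∧ W.corr (W.cl _ z) x = y}

variable {W} {c : ℕ}

lemma cn_gen {r : ℕ} {z : (Z.prod Y).Cycles} (hz : (Z.prod Y).IsCyc r z) (h : Z.dim + c ≤ r)
    (x : W.H Z) : W.corr (W.cl _ z) x ∈ Cn W c Y :=
  Submodule.subset_span ⟨Z, r, z, x, hz, h, rfl⟩

lemma cn_of_KOp {d : ℤ} (hd : (c : ℤ) ≤ d) {φ : W.H Z →ₗ[W.K] W.H Y} (hφ : φ ∈ KOp W Z Y d)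
    (x : W.H Z) : φ x ∈ Cn W c Y := by
  induction hφ using Submodule.span_induction with
  | mem φ h =>
    obtain ⟨p, hp, z, hz, rfl⟩ := h
    exact cn_gen hz (by omega) x
  | zero => exact Submodule.zero_mem _
  | add φ ψ _ _ h h' => exact Submodule.add_mem _ h h'
  | smul a φ _ h => exact Submodule.smul_mem _ _ h

lemma cn_KOp {d : ℤ} (hd : 0 ≤ d) {φ : W.H Y →ₗ[W.K] W.H Y'} (hφ : φ ∈ KOp W Y Y' d)
    {y : W.H Y} (hy : y ∈ Cn W c Y) : φ y ∈ Cn W c Y' := by
  induction hy using Submodule.span_induction with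
  | mem y h =>
    obtain ⟨Z, r, z, x, hz, hr, rfl⟩ := h
    have h1 : W.corr (W.cl _ z) ∈ KOp W Z Y ((r : ℤ) - Z.dim) := KOp.gen (by omega) hz
    exact cn_of_KOp (c := c) (by omega) (KOp.comp hφ h1) x
  | zero => rw [map_zero]; exact Submodule.zero_mem _
  | add a b _ _ h h' => rw [map_add]; exact Submodule.add_mem _ h h'
  | smul a y _ h => rw [map_smul]; exact Submodule.smul_mem _ _ h

lemma base_change (g : Y' ⟶ Y) (c : W.H (Z.prod Y)) :
    W.push (snd Z Y') (W.map (Obj.lift (fst Z Y') (snd Z Y' ≫ g)) c) =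
      W.map g (W.push (snd Z Y) c) := by
  refine W.kunneth_induction (p := fun c => W.push (snd Z Y')
    (W.map (Obj.lift (fst Z Y') (snd Z Y' ≫ g)) c) = W.map g (W.push (snd Z Y) c)) ?_ ?_ c
  · intro a b ha hb
    simp only [map_add, ha, hb]
  · intro i j a _ b _
    rw [map_mul (W.map _), ← W.map_comp, ← W.map_comp, Obj.lift_fst, Obj.lift_snd, W.map_comp,
      push_snd, push_snd, map_smul]

/-- The classes supported in codimension `c` are stable under pull-backs and products. -/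
lemma cn_pull_mul (g : Y' ⟶ Y) {x : W.H Y} (hx : x ∈ Cn W c Y) (y : W.H Y') :
    W.map g x * y ∈ Cn W c Y' := by
  induction hx using Submodule.span_induction with
  | mem x h =>
    obtain ⟨Z, r, z, a, hz, hr, rfl⟩ := h
    obtain ⟨gg, hgg⟩ : ∃ gg : Z.prod Y' ⟶ Z.prod Y, gg = Obj.lift (fst Z Y') (snd Z Y' ≫ g) :=
      ⟨_, rfl⟩
    obtain ⟨h, hh⟩ : ∃ h : Z.prod Y' ⟶ (Z.prod Y').prod Y', h = Obj.lift (𝟙 _) (snd Z Y') :=
      ⟨_, rfl⟩
    have h1 : W.map g (W.corr (W.cl _ z) a) * y =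
        W.corr (W.cl _ (ops.push h (ops.pull gg z)))
          (W.map (fst Z Y') a * W.map (snd Z Y') y) := by
      rw [corr_apply, corr_apply, ← base_change g, ← hgg, ← push_mul, W.cl_push, W.cl_pull,
        ← push_mul, ← W.map_comp, ← push_comp]
      have h2 : h ≫ snd (Z.prod Y') Y' = snd Z Y' := by rw [hh, Obj.lift_snd]
      have h3 : h ≫ fst (Z.prod Y') Y' = 𝟙 _ := by rw [hh, Obj.lift_fst]
      have h4 : gg ≫ fst Z Y = fst Z Y' := by rw [hgg, Obj.lift_fst]
      rw [h2, h3, W.map_id, map_mul (W.map gg), ← W.map_comp, h4, mul_assoc]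
    rw [h1]
    refine cn_gen (r := r + Y'.dim) ?_ ?_ _
    · refine ops.push_mem h (ops.pull_mem gg hz) ?_
      simp only [dim_prod]
      omega
    · rw [dim_prod]
      omega
  | zero => rw [map_zero, zero_mul]; exact Submodule.zero_mem _
  | add a b _ _ h h' => rw [map_add, add_mul]; exact Submodule.add_mem _ h h'
  | smul a x _ h => rw [map_smul, smul_mul_assoc]; exact Submodule.smul_mem _ _ h

lemma cn_mul {x : W.H Y} (hx : x ∈ Cn W c Y) (y : W.H Y) : x * y ∈ Cn W c Y := by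
  have h := cn_pull_mul (𝟙 Y) hx y
  rwa [W.map_id] at h

lemma cn_map (g : Y' ⟶ Y) {x : W.H Y} (hx : x ∈ Cn W c Y) : W.map g x ∈ Cn W c Y' := by
  have h := cn_pull_mul g hx 1
  rwa [mul_one] at h

/-- The ideal is homogeneous. -/
lemma cn_proj {x : W.H Y} (hx : x ∈ Cn W c Y) (i : ℕ) :
    proj (W.isInternal Y) i x ∈ Cn W c Y := by
  induction hx using Submodule.span_induction with
  | mem x h =>
    obtain ⟨Z, r, z, a, hz, hr, rfl⟩ := h
    refine gr_induction (W.isInternal Z) (p := fun a => proj (W.isInternal Y) i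
      (W.corr (W.cl _ z) a) ∈ Cn W c Y) ?_ ?_ a
    · intro j a ha
      have h1 : W.corr (W.cl _ z) ∈ KOp W Z Y ((r : ℤ) - Z.dim) := KOp.gen (by omega) hz
      have h2 := KOp.isHom h1 j a (by rw [grZ_natCast]; exact ha)
      obtain ⟨m, hm⟩ : ∃ m : ℕ, (m : ℤ) = j + 2 * ((r : ℤ) - Z.dim) :=
        ⟨(j + 2 * ((r : ℤ) - Z.dim)).toNat, by omega⟩
      rw [← hm, grZ_natCast] at h2
      by_cases him : m = i
      · subst him
        rw [proj_same (W.isInternal Y) h2]
        exact cn_gen hz hr a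
      · rw [proj_ne (W.isInternal Y) h2 him]
        exact Submodule.zero_mem _
    · intro a b ha hb
      rw [map_add, map_add]
      exact Submodule.add_mem _ ha hb
  | zero => rw [map_zero]; exact Submodule.zero_mem _
  | add a b _ _ h h' => rw [map_add]; exact Submodule.add_mem _ h h'
  | smul a x _ h => rw [map_smul]; exact Submodule.smul_mem _ _ h

lemma cn_mul_left {x : W.H Y} (hx : x ∈ Cn W c Y) (y : W.H Y) : y * x ∈ Cn W c Y := by
  refine gr_induction (W.isInternal Y) (p := fun y => y * x ∈ Cn W c Y) ?_ ?_ y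
  · intro i y hy
    induction hx using Submodule.span_induction with
    | mem x h =>
      obtain ⟨Z, r, z, a, hz, hr, rfl⟩ := h
      refine gr_induction (W.isInternal Z) (p := fun a => y * W.corr (W.cl _ z) a ∈ Cn W c Y)
        ?_ ?_ a
      · intro j a ha
        have h1 : W.corr (W.cl _ z) ∈ KOp W Z Y ((r : ℤ) - Z.dim) := KOp.gen (by omega) hz
        have h2 := KOp.isHom h1 j a (by rw [grZ_natCast]; exact ha)
        obtain ⟨m, hm⟩ : ∃ m : ℕ, (m : ℤ) = j + 2 * ((r : ℤ) - Z.dim) :=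
          ⟨(j + 2 * ((r : ℤ) - Z.dim)).toNat, by omega⟩
        rw [← hm, grZ_natCast] at h2
        rw [W.comm hy h2]
        exact Submodule.smul_mem _ _ (cn_mul (cn_gen hz hr a) y)
      · intro a b ha hb
        rw [map_add, mul_add]
        exact Submodule.add_mem _ ha hb
    | zero => rw [mul_zero]; exact Submodule.zero_mem _
    | add a b _ _ h h' => rw [mul_add]; exact Submodule.add_mem _ h h'
    | smul a x _ h => rw [mul_smul_comm]; exact Submodule.smul_mem _ _ h
  · intro a b ha hb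
    rw [add_mul]
    exact Submodule.add_mem _ ha hb

end Run7.h853.Gh
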